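import Mathlib
import Pool.Agent.H662R2.AutTab

/-!
The isomorphism problem for self-similar groups (groups generated by all states of a finite
invertible automaton) is undecidable.

Definitions used in the statement (`Pool.Agent.H662R2.AutCode`):
* `Code`: a number of letters `k` and a table, one row for each state, whose entry in row `s` and
  column `x` is the pair (next state `τ(s,x)`, output letter `λ(s,x)`);
* `Valid`: at least two letters, all rows have length `k`, all entries are in range and the
  outputs in each row are pairwise different (so `λ(s,·)` is a permutation);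
* `run`: the action `s(x w) = λ(s,x) t(w)`, `t = τ(s,x)` of a state on words;
* `GA A`: the group of permutations of the words generated by the actions of all states
  (`exists_perm`: for a valid table every state acts as a permutation).
-/

set_option autoImplicit false

namespace Pool.Agent.Results.MP_56d946_al.Undecidable

open Pool.Agent.H662R2.AG Pool.Agent.Helper599.Core Pool.Agent.Helper599.Source

/-- transport of a machine -/
def tr {Q R : Type} (e : Q ≃ R) (M : Sys Q Bool) : Sys R Bool where
  B := M.B
  hB := M.hB
  l := M.l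
  nxt q r := (M.nxt (e.symm q) r).map e
  a q r j := M.a (e.symm q) r j
  b q r j := M.b (e.symm q) r j
  ha q r j := M.ha _ _ _
  hb q r j := M.hb _ _ _

theorem tr_of {Q R : Type} (e : Q ≃ R) (M : Sys Q Bool) (o : Option Q) (n : Bool → ℕ)
    (h : M.Halts o n) : (tr e M).Halts (o.map e) n := by
  induction h with
  | stop n => exact .stop n
  | step q n _ ih =>
    refine .step _ _ ?_
    have h1 : (tr e M).nxt (e q) ((tr e M).res n) = (M.nxt q (M.res n)).map e := by
      show (M.nxt (e.symm (e q)) (M.res n)).map e = _
      rw [Equiv.symm_apply_apply]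
    have h2 : (tr e M).nn (e q) n = M.nn q n := by
      funext j
      show M.a (e.symm (e q)) _ j * _ + M.b (e.symm (e q)) _ j = _
      rw [Equiv.symm_apply_apply]
      rfl
    rw [h1, h2]
    exact ih

theorem of_tr {Q R : Type} (e : Q ≃ R) (M : Sys Q Bool) (o' : Option R) (n : Bool → ℕ)
    (h : (tr e M).Halts o' n) : M.Halts (o'.map e.symm) n := by
  induction h with
  | stop n => exact .stop n
  | step q n _ ih =>
    refine .step _ _ ?_
    have h1 : ((tr e M).nxt q ((tr e M).res n)).map e.symm = M.nxt (e.symm q) (M.res n) := by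
      show ((M.nxt (e.symm q) (M.res n)).map e).map e.symm = _
      rw [Option.map_map]
      simp
    rw [h1] at ih
    exact ih

/-- a universal counter machine with numbered states -/
theorem universal : ∃ (K : ℕ) (M : Sys (Fin K) Bool) (q0 : Fin K) (N : ℕ → ℕ),
    2 ≤ M.B ∧ Computable N ∧ ¬ ComputablePred (fun n => M.Halts (some q0) (ini (N n))) := by
  obtain ⟨Q, hQ, M, q0, N, hB, -, hN, hc⟩ := exists_sys2
  refine ⟨Nat.card Q, tr (Finite.equivFin Q) M, Finite.equivFin Q q0, N, hB, hN, ?_⟩
  intro h
  apply hc
  refine h.of_eq fun n => ?_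
  constructor
  · intro h
    have := of_tr _ _ _ _ h
    simpa using this
  · intro h
    exact tr_of _ _ _ _ h

/-- The isomorphism problem for self-similar groups is undecidable: no partial recursive function
`f` gives, for all pairs of finite invertible automata, the correct answer to the question whether
the groups generated by the states of the two automata are isomorphic (as abstract groups). -/
theorem result : ¬ ∃ f : Code × Code →. Bool, Partrec f ∧
    ∀ A B : Code, Valid A → Valid B → ∃ b ∈ f (A, B), (b = true ↔ Nonempty (GA A ≃* GA B)) := by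
  classical
  rintro ⟨f, hf, hspec⟩
  obtain ⟨K, M, q0, N, hB, hN, hc⟩ := universal
  apply hc
  let w1 : Fin a0 × ℕ := (cA none, K + 1)
  let w2 : Fin a0 × ℕ := (cA (some fun j => if j = true then 2 else 1), 0)
  have hw1 : ∀ n, (cA (none : Option (Bool → Fin 3)), cb' _ (some (sK (K := K) n))) = w1 :=
    fun n => rfl
  have hw2 : ∀ n, (cA (v1 (Q := Fin (K + n + 1)) true).1,
      cb' (K + n + 1) (v1 (Q := Fin (K + n + 1)) true).2) = w2 := fun n => rfl
  have hv1 : ∀ n, Valid (cc M q0 w1 n) := fun n => cc_valid M q0 n (none, some (sK n))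
  have hv2 : ∀ n, Valid (cc M q0 w2 n) := fun n => cc_valid M q0 n (v1 true)
  have hiff : ∀ n, Nonempty (GA (cc M q0 w1 n) ≃* GA (cc M q0 w2 n)) ↔
      ¬ M.Halts (some q0) (ini n) := by
    intro n
    rw [← main_iff M q0 n hB]
    obtain ⟨e1⟩ := cc_iso M q0 n (none, some (sK n))
    obtain ⟨e2⟩ := cc_iso M q0 n (v1 true)
    exact ⟨fun ⟨e⟩ => ⟨e1.symm.trans (e.trans e2)⟩, fun ⟨e⟩ => ⟨e1.trans (e.trans e2.symm)⟩⟩
  have hcomp : Computable (fun n => (cc M q0 w1 (N n), cc M q0 w2 (N n))) :=
    Computable.pair ((prim_cc M q0 w1).to_comp.comp hN) ((prim_cc M q0 w2).to_comp.comp hN)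
  have h2 : Partrec (fun n => f (cc M q0 w1 (N n), cc M q0 w2 (N n))) := hf.comp hcomp
  choose b hb hb2 using fun n => hspec _ _ (hv1 (N n)) (hv2 (N n))
  have h3 : Computable b := by
    refine Partrec.of_eq h2 fun n => ?_
    exact Part.eq_some_iff.mpr (hb n)
  have h4 : Computable (fun n => !(b n)) := Primrec.not.to_comp.comp h3
  refine ⟨fun n => Classical.dec _, h4.of_eq fun n => ?_⟩
  have h5 : b n = true ↔ ¬ M.Halts (some q0) (ini (N n)) := by
    rw [hb2 n, hiff]
  by_cases h6 : M.Halts (some q0) (ini (N n))
  · have : b n = false := by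
      rcases hbn : b n with _ | _
      · rfl
      · exact absurd h6 (h5.mp hbn)
    simp [this, h6]
  · have : b n = true := h5.mpr h6
    simp [this, h6]

end Pool.Agent.Results.MP_56d946_al.Undecidable
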